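import Pool.Agent.H15.IX.TC

/-!
# Positive homomorphisms to the rational numbers with denominators prime to `p`
-/

set_option autoImplicit false

open Finset Pool.Agent.H15.IX

namespace Pool.Agent.H25.IX

universe u

/-- a small positive number -/
theorem exists_small {ι : Type*} (s : Finset ι) (a b : ι → ℚ) (ha : ∀ i ∈ s, 0 < a i) :
    ∃ ε : ℚ, 0 < ε ∧ ∀ i ∈ s, ∀ e : ℚ, 0 ≤ e → e ≤ ε → e * b i < a i := by
  have hS : ∀ i ∈ s, 0 ≤ |b i| / a i := fun i hi => div_nonneg (abs_nonneg _) (ha i hi).le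
  have hS0 : 0 ≤ ∑ i ∈ s, |b i| / a i := Finset.sum_nonneg hS
  refine ⟨1 / (1 + ∑ i ∈ s, |b i| / a i), by positivity, fun i hi e he hle => ?_⟩
  have h1 : |b i| / a i ≤ ∑ i ∈ s, |b i| / a i := Finset.single_le_sum hS hi
  have h2 : |b i| ≤ (∑ i ∈ s, |b i| / a i) * a i := by rwa [div_le_iff₀ (ha i hi)] at h1
  have h3 : e * (1 + ∑ i ∈ s, |b i| / a i) ≤ 1 := by
    rwa [le_div_iff₀ (by positivity)] at hle
  have h4 : e * b i ≤ e * |b i| := mul_le_mul_of_nonneg_left (le_abs_self _) he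
  have h5 : e * |b i| ≤ e * ((∑ i ∈ s, |b i| / a i) * a i) := mul_le_mul_of_nonneg_left h2 he
  rcases he.eq_or_lt with h | h
  · rw [← h, zero_mul]; exact ha i hi
  · nlinarith [mul_pos h (ha i hi), ha i hi]

/-- Gordan's theorem of the alternative -/
theorem gordan (n : ℕ) : ∀ (V : Type u) [AddCommGroup V] [Module ℚ V] (g : Fin n → V),
    (∀ c : Fin n → ℚ, (∀ i, 0 ≤ c i) → ∑ i, c i • g i = 0 → ∀ i, c i = 0) →
    ∃ φ : V →ₗ[ℚ] ℚ, ∀ i, 0 < φ (g i) := by
  induction n with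
  | zero => exact fun V _ _ g _ => ⟨0, fun i => i.elim0⟩
  | succ n ih =>
    intro V _ _ g hg
    have hh : g 0 ≠ 0 := by
      intro h0
      have := hg (Pi.single 0 1) (fun i => by
        by_cases hi : i = 0
        · subst hi; simp
        · simp [Pi.single_eq_of_ne hi]) (by
        rw [Finset.sum_eq_single 0]
        · simp [h0]
        · intro b _ hb
          simp [Pi.single_eq_of_ne hb]
        · simp) 0
      simp at this
    by_cases hB : ∃ c : Fin n → ℚ, (∀ i, 0 ≤ c i) ∧ (∃ i, c i ≠ 0) ∧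
        ∃ a : ℚ, ∑ i, c i • g i.succ = a • g 0
    · obtain ⟨c, hc, ⟨i₀, hi₀⟩, a, ha⟩ := hB
      have hapos : 0 < a := by
        by_contra hcon
        push Not at hcon
        have := hg (Fin.cons (-a) c) (fun i => by
          refine Fin.cases ?_ (fun j => ?_) i
          · rw [Fin.cons_zero]; linarith
          · rw [Fin.cons_succ]; exact hc j) (by
          rw [Fin.sum_univ_succ]
          simp only [Fin.cons_zero, Fin.cons_succ]
          rw [ha]
          simp) i₀.succ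
        rw [Fin.cons_succ] at this
        exact hi₀ this
      obtain ⟨φ, hφ⟩ := ih V (fun i => g i.succ) (fun d hd hsum i => by
        have := hg (Fin.cons 0 d) (fun i => by
          refine Fin.cases ?_ (fun j => ?_) i
          · rw [Fin.cons_zero]
          · rw [Fin.cons_succ]; exact hd j) (by
          rw [Fin.sum_univ_succ]
          simp only [Fin.cons_zero, Fin.cons_succ]
          rw [hsum]
          simp) i.succ
        rwa [Fin.cons_succ] at this)
      refine ⟨φ, fun i => ?_⟩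
      refine Fin.cases ?_ (fun j => hφ j) i
      have hs : ∑ i, c i * φ (g i.succ) = a * φ (g 0) := by
        have := congrArg φ ha
        rw [map_sum, map_smul, smul_eq_mul] at this
        rw [← this]
        exact Finset.sum_congr rfl fun i _ => by rw [map_smul, smul_eq_mul]
      have hpos : 0 < ∑ i, c i * φ (g i.succ) := by
        refine Finset.sum_pos' (fun i _ => mul_nonneg (hc i) (hφ i).le) ⟨i₀, Finset.mem_univ _, ?_⟩
        exact mul_pos (lt_of_le_of_ne (hc i₀) (Ne.symm hi₀)) (hφ i₀)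
      rw [hs] at hpos
      exact (mul_pos_iff_of_pos_left hapos).1 hpos
    · push Not at hB
      obtain ⟨φ, hφ⟩ := ih (V ⧸ Submodule.span ℚ {g 0})
        (fun i => (Submodule.span ℚ {g 0}).mkQ (g i.succ)) (fun c hc hsum => by
          by_contra hcon
          push Not at hcon
          have hm : ∑ i, c i • g i.succ ∈ Submodule.span ℚ {g 0} := by
            rw [← Submodule.Quotient.mk_eq_zero, ← Submodule.mkQ_apply, map_sum]
            rw [← hsum]
            exact Finset.sum_congr rfl fun i _ => by rw [map_smul]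
          rw [Submodule.mem_span_singleton] at hm
          obtain ⟨a, ha⟩ := hm
          exact hB c hc hcon a ha.symm)
      obtain ⟨ρ, hρ⟩ : ∃ ρ : V →ₗ[ℚ] ℚ, 0 < ρ (g 0) := by
        have : ¬ ∀ φ : Module.Dual ℚ V, φ (g 0) = 0 := fun h =>
          hh ((Module.forall_dual_apply_eq_zero_iff ℚ (g 0)).1 h)
        push Not at this
        obtain ⟨ρ, hρ⟩ := this
        rcases lt_or_gt_of_ne hρ with h | h
        · exact ⟨-ρ, by rw [LinearMap.neg_apply]; linarith⟩
        · exact ⟨ρ, h⟩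
      obtain ⟨ε, hε, hsm⟩ := exists_small (Finset.univ : Finset (Fin n))
        (fun i => φ ((Submodule.span ℚ {g 0}).mkQ (g i.succ))) (fun i => -ρ (g i.succ))
        (fun i _ => hφ i)
      refine ⟨φ.comp (Submodule.span ℚ {g 0}).mkQ + ε • ρ, fun i => ?_⟩
      rw [LinearMap.add_apply, LinearMap.comp_apply, LinearMap.smul_apply, smul_eq_mul]
      refine Fin.cases ?_ (fun j => ?_) i
      · have h0 : (Submodule.span ℚ {g 0}).mkQ (g 0) = 0 := by
          rw [Submodule.mkQ_apply, Submodule.Quotient.mk_eq_zero]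
          exact Submodule.mem_span_singleton_self _
        rw [h0, map_zero, zero_add]
        exact mul_pos hε hρ
      · have := hsm j (Finset.mem_univ _) ε hε.le le_rfl
        linarith

/-- a homomorphism to the rational numbers, positive on a finite set of positive elements -/
theorem pos_hom (D : Type u) [AddCommGroup D] [LinearOrder D] [IsOrderedAddMonoid D]
    (P : Finset D) (hP : ∀ x ∈ P, 0 < x) : ∃ ψ : D →+ ℚ, ∀ x ∈ P, 0 < ψ x := by
  classical
  have hpos : ∀ x ∈ P, (0 : DivisibleHull D) < (x : DivisibleHull D) := by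
    intro x hx
    have h2 : (0 : DivisibleHull D) ≤ (x : DivisibleHull D) := by
      have := (DivisibleHull.coeOrderAddMonoidHom (M := D)).monotone' (hP x hx).le
      have h0 : (DivisibleHull.coeOrderAddMonoidHom (M := D)) 0 = 0 := map_zero _
      exact h0 ▸ this
    refine lt_of_le_of_ne h2 fun h => ?_
    have : (x : DivisibleHull D) = ((0 : D) : DivisibleHull D) := h.symm.trans
      (DivisibleHull.mk_zero 1).symm
    rw [DivisibleHull.coe_inj] at this
    exact (hP x hx).ne' this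
  obtain ⟨φ, hφ⟩ := gordan P.card (DivisibleHull D)
    (fun i => ((P.equivFin.symm i : D) : DivisibleHull D)) (by
      intro c hc hsum i
      have hnn : ∀ i ∈ (Finset.univ : Finset (Fin P.card)),
          (0 : DivisibleHull D) ≤ c i • ((P.equivFin.symm i : D) : DivisibleHull D) :=
        fun i _ => smul_nonneg (hc i) (hpos _ (P.equivFin.symm i).2).le
      have h0 := (Finset.sum_eq_zero_iff_of_nonneg hnn).1 hsum i (Finset.mem_univ i)
      rcases smul_eq_zero.1 h0 with h | h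
      · exact h
      · exact absurd h (hpos _ (P.equivFin.symm i).2).ne')
  refine ⟨φ.toAddMonoidHom.comp (DivisibleHull.coeAddMonoidHom D), fun x hx => ?_⟩
  have := hφ (P.equivFin ⟨x, hx⟩)
  simpa using this

/-- rational numbers with denominator prime to `p` -/
def Dn (p : ℕ) (r : ℚ) : Prop := ∃ (m : ℕ) (n : ℤ), ¬ p ∣ m ∧ (m : ℚ) * r = n

theorem dn_add {p : ℕ} (hp : p.Prime) {r s : ℚ} (hr : Dn p r) (hs : Dn p s) : Dn p (r + s) := by
  obtain ⟨m, n, h1, h2⟩ := hr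
  obtain ⟨m', n', h1', h2'⟩ := hs
  refine ⟨m * m', n * m' + n' * m, ?_, ?_⟩
  · rw [hp.dvd_mul]
    tauto
  · push_cast
    rw [← h2, ← h2']
    ring

theorem dn_zero {p : ℕ} (hp : p.Prime) : Dn p 0 :=
  ⟨1, 0, fun h => hp.one_lt.ne' (Nat.dvd_one.1 h), by simp⟩

theorem dn_int_mul {p : ℕ} {r : ℚ} (a : ℤ) (hr : Dn p r) : Dn p ((a : ℚ) * r) := by
  obtain ⟨m, n, h1, h2⟩ := hr
  refine ⟨m, a * n, h1, ?_⟩
  push_cast
  rw [← h2]
  ring

theorem dn_sum {ι : Type*} {p : ℕ} (hp : p.Prime) (s : Finset ι) (f : ι → ℚ)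
    (h : ∀ i ∈ s, Dn p (f i)) : Dn p (∑ i ∈ s, f i) := by
  classical
  induction s using Finset.induction_on with
  | empty => rw [Finset.sum_empty]; exact dn_zero hp
  | insert a s ha ih =>
    rw [Finset.sum_insert ha]
    exact dn_add hp (h a (Finset.mem_insert_self a s))
      (ih fun i hi => h i (Finset.mem_insert_of_mem hi))

theorem dn_den {p : ℕ} {r : ℚ} (h : Dn p r) : ¬ p ∣ r.den := by
  obtain ⟨m, n, h1, h2⟩ := h
  have hm : (m : ℚ) ≠ 0 := by
    intro h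
    rw [Nat.cast_eq_zero] at h
    exact h1 (h ▸ dvd_zero p)
  have hr : r = Rat.divInt n (m : ℤ) := by
    rw [Rat.divInt_eq_div, ← h2]
    push_cast
    rw [mul_div_cancel_left₀ _ hm]
  have hd := Rat.den_dvd n (m : ℤ)
  rw [← hr] at hd
  intro hp
  exact h1 (hp.trans (by exact_mod_cast hd))

theorem grp_core (D : Type u) [AddCommGroup D] [LinearOrder D] [IsOrderedAddMonoid D]
    [Module.Finite ℤ D] (τ : D) (p : ℕ) (P : Finset D) (hτ : 0 < τ) (hp : p.Prime)
    (hdiv : ∀ (x : D) (m : ℕ) (n : ℤ), 1 ≤ m → m • x = n • τ →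
      ∃ (m' : ℕ) (n' : ℤ), ¬ p ∣ m' ∧ m' • x = n' • τ)
    (hP : ∀ x ∈ P, 0 < x) :
    ∃ φ : D →+ ℚ, (∀ x ∈ P, 0 < φ x) ∧ (∀ x, ¬ p ∣ (φ x).den) ∧
      ∀ (x : D) (m : ℕ) (n : ℤ), 1 ≤ m → m • x = n • τ → (m : ℚ) * φ x = n := by
  classical
  obtain ⟨ψ₀, hψ₀⟩ := pos_hom D (insert τ P) (by
    intro x hx
    rcases Finset.mem_insert.1 hx with rfl | hx
    · exact hτ
    · exact hP x hx)
  have hψτ : 0 < ψ₀ τ := hψ₀ τ (Finset.mem_insert_self _ _)
  -- the normalized homomorphism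
  obtain ⟨ψ, hψ⟩ : ∃ ψ : D →+ ℚ, ∀ x, ψ x = ψ₀ x / ψ₀ τ :=
    ⟨(AddMonoidHom.mulRight (ψ₀ τ)⁻¹).comp ψ₀, fun x => by
      simp [div_eq_mul_inv]⟩
  have hψP : ∀ x ∈ P, 0 < ψ x := fun x hx => by
    rw [hψ]; exact div_pos (hψ₀ x (Finset.mem_insert_of_mem hx)) hψτ
  have hψq : ∀ (x : D) (m : ℕ) (n : ℤ), m • x = n • τ → (m : ℚ) * ψ x = n := by
    intro x m n h
    have h1 := congrArg ψ₀ h
    rw [map_nsmul, map_zsmul, nsmul_eq_mul, zsmul_eq_mul] at h1
    rw [hψ, ← mul_div_assoc, h1, mul_div_assoc, div_self hψτ.ne', mul_one]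
  -- the isolated subgroup of `τ`
  let D₀ : Submodule ℤ D :=
    { carrier := {x | ∃ (m : ℕ) (n : ℤ), 1 ≤ m ∧ m • x = n • τ}
      add_mem' := by
        rintro a b ⟨m, n, h1, h2⟩ ⟨m', n', h1', h2'⟩
        refine ⟨m * m', n * m' + n' * m, Nat.one_le_iff_ne_zero.2
          (Nat.mul_ne_zero (by omega) (by omega)), ?_⟩
        rw [smul_add, mul_comm m m', mul_smul, h2, mul_comm m' m, mul_smul, h2', add_smul,
          mul_comm n, mul_comm n', mul_smul, mul_smul, natCast_zsmul, natCast_zsmul]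
      zero_mem' := ⟨1, 0, le_rfl, by simp⟩
      smul_mem' := by
        rintro c a ⟨m, n, h1, h2⟩
        refine ⟨m, c * n, h1, ?_⟩
        rw [smul_comm, h2, mul_smul] }
  have hD₀ : ∀ x, x ∈ D₀ ↔ ∃ (m : ℕ) (n : ℤ), 1 ≤ m ∧ m • x = n • τ := fun x => Iff.rfl
  have htf : Module.IsTorsionFree ℤ (D ⧸ D₀) := by
    refine Module.IsTorsionFree.of_smul_eq_zero fun c x hcx => ?_
    obtain ⟨x, rfl⟩ := D₀.mkQ_surjective x
    by_cases hc : c = 0
    · exact Or.inl hc
    · right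
      rw [← map_smul, Submodule.mkQ_apply, Submodule.Quotient.mk_eq_zero, hD₀] at hcx
      rw [Submodule.mkQ_apply, Submodule.Quotient.mk_eq_zero, hD₀]
      obtain ⟨m, n, h1, h2⟩ := hcx
      refine ⟨m * c.natAbs, c.sign * n, Nat.one_le_iff_ne_zero.2
        (Nat.mul_ne_zero (by omega) (by simpa using hc)), ?_⟩
      rw [mul_smul, ← natCast_zsmul x c.natAbs, ← Int.sign_mul_self_eq_natAbs, mul_smul,
        smul_comm, h2, mul_smul]
  have hfree : Module.Free ℤ (D ⧸ D₀) := inferInstance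
  obtain ⟨s, hs⟩ := Module.projective_lifting_property D₀.mkQ
    (LinearMap.id : (D ⧸ D₀) →ₗ[ℤ] (D ⧸ D₀)) D₀.mkQ_surjective
  have hs' : ∀ y, D₀.mkQ (s y) = y := fun y => by
    have := congrArg (fun f => f y) hs
    simpa using this
  let b := Module.Free.chooseBasis ℤ (D ⧸ D₀)
  obtain ⟨ε, hε, hsm⟩ := exists_small P (fun x => ψ x)
    (fun x => ∑ j, |((b.repr (D₀.mkQ x) j : ℤ) : ℚ)|) hψP
  obtain ⟨N, hN⟩ : ∃ N : ℕ, N = p * ⌈1 / ε⌉₊ + 1 := ⟨_, rfl⟩
  have hpN : ¬ p ∣ N := by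
    intro h
    rw [hN, Nat.dvd_add_right (dvd_mul_right p _)] at h
    exact hp.one_lt.ne' (Nat.dvd_one.1 h)
  have hN0 : (0 : ℚ) < N := by rw [hN]; positivity
  have hNε : 1 / (N : ℚ) ≤ ε := by
    rw [div_le_iff₀ hN0]
    have h1 : 1 / ε ≤ (⌈1 / ε⌉₊ : ℚ) := Nat.le_ceil _
    have h2 : (⌈1 / ε⌉₊ : ℚ) ≤ N := by
      rw [hN]
      push_cast
      have : (1 : ℚ) ≤ p := by exact_mod_cast hp.one_lt.le
      have h3 : (0 : ℚ) ≤ (⌈1 / ε⌉₊ : ℚ) := by positivity
      nlinarith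
    rw [div_le_iff₀ hε] at h1
    nlinarith
  -- approximation of the values at the basis
  have hr : ∀ j, ∃ r : ℚ, Dn p r ∧ |ψ (s (b j)) - r| ≤ 1 / (N : ℚ) := by
    intro j
    refine ⟨(⌊ψ (s (b j)) * N⌋ : ℚ) / N, ⟨N, ⌊ψ (s (b j)) * N⌋, hpN, ?_⟩, ?_⟩
    · rw [mul_div_cancel₀ _ hN0.ne']
    · have h1 := Int.floor_le (ψ (s (b j)) * N)
      have h2 := Int.lt_floor_add_one (ψ (s (b j)) * N)
      have e : ψ (s (b j)) - (⌊ψ (s (b j)) * N⌋ : ℚ) / N =
          (ψ (s (b j)) * N - ⌊ψ (s (b j)) * N⌋) / N := by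
        field_simp
      rw [e, abs_of_nonneg (div_nonneg (by linarith) hN0.le)]
      exact div_le_div_of_nonneg_right (by linarith) hN0.le
  choose r hrD hrN using hr
  obtain ⟨φ, hφ⟩ : ∃ φ : D →+ ℚ, ∀ x, φ x = ψ (x - s (D₀.mkQ x)) +
      ∑ j, ((b.repr (D₀.mkQ x) j : ℤ) : ℚ) * r j := by
    refine ⟨AddMonoidHom.mk' (fun x => ψ (x - s (D₀.mkQ x)) +
      ∑ j, ((b.repr (D₀.mkQ x) j : ℤ) : ℚ) * r j) ?_, fun x => rfl⟩
    intro x y
    have e1 : x + y - s (D₀.mkQ (x + y)) = (x - s (D₀.mkQ x)) + (y - s (D₀.mkQ y)) := by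
      rw [map_add, map_add]
      abel
    rw [e1, map_add]
    have e2 : ∑ j, ((b.repr (D₀.mkQ (x + y)) j : ℤ) : ℚ) * r j =
        ∑ j, ((b.repr (D₀.mkQ x) j : ℤ) : ℚ) * r j +
          ∑ j, ((b.repr (D₀.mkQ y) j : ℤ) : ℚ) * r j := by
      rw [← Finset.sum_add_distrib]
      refine Finset.sum_congr rfl fun j _ => ?_
      rw [map_add, map_add, Finsupp.add_apply]
      push_cast
      ring
    rw [e2]
    ring
  have hker : ∀ x, x - s (D₀.mkQ x) ∈ D₀ := by
    intro x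
    rw [← Submodule.Quotient.mk_eq_zero, ← Submodule.mkQ_apply, map_sub, hs', sub_self]
  have hval : ∀ x, ψ (s (D₀.mkQ x)) =
      ∑ j, ((b.repr (D₀.mkQ x) j : ℤ) : ℚ) * ψ (s (b j)) := by
    intro x
    conv_lhs => rw [← b.sum_repr (D₀.mkQ x)]
    rw [map_sum, map_sum]
    refine Finset.sum_congr rfl fun j _ => ?_
    rw [map_smul, map_zsmul, zsmul_eq_mul]
  refine ⟨φ, fun x hx => ?_, fun x => dn_den ?_, fun x m n hm hmn => ?_⟩
  · have h1 : ψ x - φ x = ∑ j, ((b.repr (D₀.mkQ x) j : ℤ) : ℚ) * (ψ (s (b j)) - r j) := by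
      rw [hφ, map_sub, hval]
      simp only [mul_sub, Finset.sum_sub_distrib]
      ring
    have h2 : ∑ j, ((b.repr (D₀.mkQ x) j : ℤ) : ℚ) * (ψ (s (b j)) - r j) ≤
        ∑ j, |((b.repr (D₀.mkQ x) j : ℤ) : ℚ)| * (1 / (N : ℚ)) := by
      refine Finset.sum_le_sum fun j _ => ?_
      refine (le_abs_self _).trans ?_
      rw [abs_mul]
      exact mul_le_mul_of_nonneg_left (hrN j) (abs_nonneg _)
    rw [← Finset.sum_mul, mul_comm] at h2
    have h3 := hsm x hx (1 / (N : ℚ)) (by positivity) hNε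
    linarith
  · rw [hφ]
    refine dn_add hp ?_ (dn_sum hp _ _ fun j _ => dn_int_mul _ (hrD j))
    obtain ⟨m, n, h1, h2⟩ := (hD₀ _).1 (hker x)
    obtain ⟨m', n', h3, h4⟩ := hdiv _ m n h1 h2
    exact ⟨m', n', h3, hψq _ m' n' h4⟩
  · have hx0 : D₀.mkQ x = 0 := by
      rw [Submodule.mkQ_apply, Submodule.Quotient.mk_eq_zero]
      exact ⟨m, n, hm, hmn⟩
    rw [hφ, hx0]
    simp only [map_zero, Finsupp.coe_zero, Pi.zero_apply, Int.cast_zero, zero_mul,
      Finset.sum_const_zero, add_zero, sub_zero]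
    exact hψq x m n hmn

theorem pf_GRP : T_GRP.{u} := by
  intro Γ _ _ _ Δ τ p P hfg hτΔ hτ hp hdiv hP
  classical
  have hfin : Module.Finite ℤ Δ := by
    rw [Module.Finite.iff_addGroup_fg, AddGroup.fg_iff_addSubgroup_fg]
    exact hfg
  obtain ⟨Q, hQ⟩ : ∃ Q : Finset Δ, ∀ x : Δ, x ∈ Q ↔ (x : Γ) ∈ P := by
    refine ⟨P.attach.image fun x => (⟨x.1, (hP x.1 x.2).1⟩ : Δ), fun x => ?_⟩
    rw [Finset.mem_image]
    constructor
    · rintro ⟨y, -, rfl⟩
      exact y.2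
    · exact fun hx => ⟨⟨x, hx⟩, Finset.mem_attach _ _, rfl⟩
  obtain ⟨φ, h1, h2, h3⟩ := grp_core Δ ⟨τ, hτΔ⟩ p Q hτ hp (by
      intro x m n hm hmn
      obtain ⟨m', n', h1, h2⟩ := hdiv x x.2 m n hm (by
        have := congrArg (Subtype.val : Δ → Γ) hmn
        simpa using this)
      refine ⟨m', n', h1, ?_⟩
      apply Subtype.ext
      simpa using h2) (fun x hx => (hP x ((hQ x).1 hx)).2)
  refine ⟨φ, fun x hx => h1 x ((hQ x).2 hx), h2, fun x m n hm hmn => h3 x m n hm ?_⟩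
  apply Subtype.ext
  simpa using hmn

end Pool.Agent.H25.IX
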