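import Pool.Agent.H15.IX.TC

/-!
# The immediate transcendental part
-/

set_option autoImplicit false

open Finset Pool.Agent.H15.IX

namespace Pool.Agent.H25.IX

universe u

theorem val_eval_eq {Ω : Type u} [Field Ω] [IsAlgClosed Ω] (O : ValuationSubring Ω)
    (q : Polynomial Ω) (z ζ : Ω) (h : ∀ a ∈ q.roots, O.valuation (z - a) = O.valuation (ζ - a)) :
    O.valuation (q.eval z) = O.valuation (q.eval ζ) := by
  rw [(IsAlgClosed.splits q).eval_eq_prod_roots z, (IsAlgClosed.splits q).eval_eq_prod_roots ζ,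
    map_mul, map_mul, map_multiset_prod, map_multiset_prod, Multiset.map_map, Multiset.map_map]
  congr 2
  exact Multiset.map_congr rfl fun a ha => h a ha

theorem pf_IMM (hTRC : T_TRC.{u}) (hGEN : T_GEN.{u}) : T_IMM.{u} := by
  intro k Ω _ _ _ _ _ _ O N M ζ hkO hkN hNM hRac hN hI hζ
  classical
  by_cases hζN : ζ ∈ N
  · have hcl : Subfield.closure ((N : Set Ω) ∪ {ζ}) = N := by
      refine le_antisymm ?_ ?_
      · rw [Subfield.closure_le]
        rintro x (hx | hx)
        · exact hx
        · rw [Set.mem_singleton_iff] at hx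
          rw [hx]; exact hζN
      · exact fun x hx => Subfield.subset_closure (Or.inl hx)
    intro m y hy F hF
    rw [hcl] at hy
    exact ⟨y, hy, fun P _ Q _ => Iff.rfl⟩
  refine hGEN Ω O N {ζ} ?_
  -- (1)
  have h1 : ∀ b ∈ N, ∃ b' ∈ N, O.valuation (ζ - b') < O.valuation (ζ - b) := by
    intro b hb
    have hne : ζ - b ≠ 0 := by
      intro h
      rw [sub_eq_zero] at h
      exact hζN (h ▸ hb)
    obtain ⟨y, hy, hlt⟩ := hI (ζ - b) (M.sub_mem hζ (hNM hb)) hne
    refine ⟨b + y, N.add_mem hb hy, ?_⟩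
    rwa [show ζ - (b + y) = ζ - b - y by ring]
  -- (2)
  have h2 : ∀ a : Ω, IsIntegral N a → ∃ b ∈ N, O.valuation (ζ - b) < O.valuation (ζ - a) := by
    intro a ha
    by_contra hcon
    push Not at hcon
    obtain ⟨a0, ha0, hbest⟩ := hTRC k Ω O N hkO hkN hN a ha
    have hab : ∀ b ∈ N, O.valuation (a - b) ≤ O.valuation (ζ - b) := by
      intro b hb
      have e : a - b = (ζ - b) - (ζ - a) := by ring
      rw [e]
      exact (O.valuation.map_sub _ _).trans (max_le le_rfl (hcon b hb))
    obtain ⟨b', hb', hlt⟩ := h1 a0 ha0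
    have e : ζ - a0 = (ζ - a) + (a - a0) := by ring
    have hle : O.valuation (ζ - a0) ≤ O.valuation (ζ - b') := by
      rw [e]
      exact (O.valuation.map_add _ _).trans
        (max_le (hcon b' hb') ((hbest b' hb').trans (hab b' hb')))
    exact absurd hlt (not_lt.2 hle)
  -- (3)
  have h3 : ∀ A : Finset Ω, (∀ a ∈ A, IsIntegral N a) →
      ∃ z ∈ N, ∀ a ∈ A, O.valuation (ζ - z) < O.valuation (ζ - a) := by
    intro A
    induction A using Finset.induction_on with
    | empty => exact fun _ => ⟨0, N.zero_mem, fun a ha => absurd ha (Finset.notMem_empty a)⟩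
    | insert a A _ ih =>
      intro hA
      obtain ⟨z, hz, hzA⟩ := ih fun b hb => hA b (Finset.mem_insert_of_mem hb)
      obtain ⟨b, hb, hba⟩ := h2 a (hA a (Finset.mem_insert_self a A))
      rcases le_total (O.valuation (ζ - z)) (O.valuation (ζ - b)) with h | h
      · refine ⟨z, hz, fun c hc => ?_⟩
        rcases Finset.mem_insert.1 hc with rfl | hc
        · exact lt_of_le_of_lt h hba
        · exact hzA c hc
      · refine ⟨b, hb, fun c hc => ?_⟩
        rcases Finset.mem_insert.1 hc with rfl | hc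
        · exact hba
        · exact lt_of_le_of_lt h (hzA c hc)
  intro m y hy F hF
  have hy' : y = fun _ => ζ := funext fun i => hy i
  subst hy'
  have hlift : ∀ P : MvPolynomial (Fin m) Ω, (∀ s, P.coeff s ∈ N) →
      ∃ q : Polynomial N, ∀ x : Ω, MvPolynomial.eval (fun _ => x) P = (q.map N.subtype).eval x := by
    intro P hP
    have hm : P ∈ Set.range (MvPolynomial.map N.subtype) := by
      rw [MvPolynomial.mem_range_map_iff_coeffs_subset]
      intro c hc
      rw [Finset.mem_coe, MvPolynomial.mem_coeffs_iff] at hc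
      obtain ⟨s, -, rfl⟩ := hc
      exact ⟨⟨_, hP s⟩, rfl⟩
    obtain ⟨P', rfl⟩ := hm
    refine ⟨MvPolynomial.eval₂ Polynomial.C (fun _ => Polynomial.X) P', fun x => ?_⟩
    have hk := MvPolynomial.eval₂_comp_left (Polynomial.eval₂RingHom N.subtype x)
      (Polynomial.C : N →+* Polynomial N) (fun _ : Fin m => (Polynomial.X : Polynomial N)) P'
    rw [MvPolynomial.eval_map, Polynomial.eval_map, ← Polynomial.coe_eval₂RingHom, hk]
    congr 1
    · ext c; simp
    · funext i; simp
  choose! q hq using hlift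
  obtain ⟨z, hz, hzA⟩ := h3 (F.biUnion fun P => ((q P).map N.subtype).roots.toFinset) (by
    intro a ha
    rw [Finset.mem_biUnion] at ha
    obtain ⟨P, -, ha⟩ := ha
    rw [Multiset.mem_toFinset] at ha
    have hne : (q P).map N.subtype ≠ 0 := Polynomial.ne_zero_of_mem_roots ha
    have hroot := (Polynomial.mem_roots hne).1 ha
    have hq0 : q P ≠ 0 := fun h => hne (by rw [h, Polynomial.map_zero])
    have hal : IsAlgebraic N a := by
      refine ⟨q P, hq0, ?_⟩
      rw [Polynomial.IsRoot, Polynomial.eval_map] at hroot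
      exact hroot
    exact hal.isIntegral)
  have hkey : ∀ P ∈ F, O.valuation (MvPolynomial.eval (fun _ => z) P) =
      O.valuation (MvPolynomial.eval (fun _ => ζ) P) := by
    intro P hP
    rw [hq P (hF P hP), hq P (hF P hP)]
    refine val_eval_eq O _ z ζ fun a ha => ?_
    have hlt := hzA a (Finset.mem_biUnion.2 ⟨P, hP, Multiset.mem_toFinset.2 ha⟩)
    have e : z - a = (ζ - a) - (ζ - z) := by ring
    rw [e]
    exact Valuation.map_sub_eq_of_lt_left _ hlt
  refine ⟨fun _ => z, fun _ => hz, fun P hP Q hQ => ?_⟩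
  rw [hkey P hP, hkey Q hQ]

end Pool.Agent.H25.IX
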