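import Pool.Agent.H15.IX.TC

/-!
# Cross sections
-/

set_option autoImplicit false

open Finset Pool.Agent.H15.IX

namespace Pool.Agent.H25.IX

universe u

/-- a subgroup which meets `U` trivially can be extended to a complement, if `U ⊓ M` is
divisible -/
theorem exists_section {G : Type u} [CommGroup G] (U M S₀ : Subgroup G)
    (hdiv : ∀ g ∈ U, g ∈ M → ∀ n : ℕ, 1 ≤ n → ∃ w ∈ U, w ∈ M ∧ w ^ n = g)
    (h0M : S₀ ≤ M) (h0U : ∀ s ∈ S₀, s ∈ U → s = 1) :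
    ∃ S : Subgroup G, S₀ ≤ S ∧ S ≤ M ∧ (∀ s ∈ S, s ∈ U → s = 1) ∧
      ∀ x ∈ M, ∃ s ∈ S, s⁻¹ * x ∈ U := by
  obtain ⟨S, hS0, hmax⟩ := zorn_le_nonempty₀
    {S : Subgroup G | S ≤ M ∧ ∀ s ∈ S, s ∈ U → s = 1} (by
      intro c hc hchain y hy
      refine ⟨sSup c, ⟨sSup_le fun S hS => (hc hS).1, ?_⟩, fun z hz => le_sSup hz⟩
      intro s hs hsU
      rw [Subgroup.mem_sSup_of_directedOn ⟨y, hy⟩ hchain.directedOn] at hs
      obtain ⟨T, hT, hsT⟩ := hs
      exact (hc hT).2 s hsT hsU) S₀ ⟨h0M, h0U⟩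
  obtain ⟨⟨hSM, hSU⟩, hmax⟩ := hmax
  refine ⟨S, hS0, hSM, hSU, fun x hx => ?_⟩
  by_contra hcon
  push Not at hcon
  have hadd : ∀ y ∈ M, (∀ s ∈ S, ∀ j : ℤ, s * y ^ j ∈ U → s * y ^ j = 1) → y ∈ S := by
    intro y hy h
    have hle : S ≤ S ⊔ Subgroup.zpowers y := le_sup_left
    have hmem : S ⊔ Subgroup.zpowers y ∈ {S : Subgroup G | S ≤ M ∧ ∀ s ∈ S, s ∈ U → s = 1} := by
      refine ⟨sup_le hSM (by rwa [Subgroup.zpowers_le]), ?_⟩
      intro s hs hsU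
      rw [Subgroup.mem_sup] at hs
      obtain ⟨a, ha, b, hb, rfl⟩ := hs
      rw [Subgroup.mem_zpowers_iff] at hb
      obtain ⟨j, rfl⟩ := hb
      exact h a ha j hsU
    have := hmax hmem hle
    exact this ((le_sup_right : Subgroup.zpowers y ≤ S ⊔ Subgroup.zpowers y)
      (Subgroup.mem_zpowers y))
  by_cases hex : ∃ n : ℕ, 1 ≤ n ∧ ∃ s ∈ S, s⁻¹ * x ^ n ∈ U
  · classical
    have hspec := Nat.find_spec hex
    have hmin : ∀ m : ℕ, m < Nat.find hex → ¬ (1 ≤ m ∧ ∃ s ∈ S, s⁻¹ * x ^ m ∈ U) :=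
      fun m hm => Nat.find_min hex hm
    obtain ⟨n, hn⟩ : ∃ n, n = Nat.find hex := ⟨_, rfl⟩
    rw [← hn] at hspec hmin
    obtain ⟨hn1, s, hs, hsU⟩ := hspec
    obtain ⟨w, hwU, hwM, hw⟩ := hdiv _ hsU (M.mul_mem (M.inv_mem (hSM hs)) (M.pow_mem hx n)) n hn1
    have hx' : (x * w⁻¹) ^ n = s := by
      rw [mul_pow, inv_pow, hw]
      group
    have hy : x * w⁻¹ ∈ S := by
      refine hadd _ (M.mul_mem hx (M.inv_mem hwM)) fun a ha j hj => ?_
      have hn0 : (n : ℤ) ≠ 0 := by omega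
      have hdm := Int.emod_add_mul_ediv j n
      have hr0 := Int.emod_nonneg j hn0
      have hrn := Int.emod_lt_of_pos j (by omega : (0 : ℤ) < n)
      obtain ⟨r, hr⟩ := Int.eq_ofNat_of_zero_le hr0
      have e : (x * w⁻¹) ^ j = (x * w⁻¹) ^ r * s ^ (j / n) := by
        conv_lhs => rw [← hdm]
        rw [zpow_add, zpow_mul, zpow_natCast, hx', hr, zpow_natCast]
      by_cases hr1 : 1 ≤ r
      · exfalso
        refine hmin r (by omega) ⟨hr1, (a * s ^ (j / n))⁻¹,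
          S.inv_mem (S.mul_mem ha (S.zpow_mem hs _)), ?_⟩
        have e2 : (a * s ^ (j / (n : ℤ)))⁻¹⁻¹ * x ^ r = a * (x * w⁻¹) ^ j * w ^ r := by
          rw [e, inv_inv, mul_pow, inv_pow]
          calc a * s ^ (j / (n : ℤ)) * x ^ r = a * (x ^ r * s ^ (j / (n : ℤ))) := by
                rw [mul_assoc, mul_comm (s ^ (j / (n : ℤ)))]
            _ = a * (x ^ r * s ^ (j / (n : ℤ)) * (w ^ r)⁻¹) * w ^ r := by
                rw [← mul_assoc a (x ^ r * s ^ (j / (n : ℤ))), inv_mul_cancel_right]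
            _ = a * (x ^ r * (w ^ r)⁻¹ * s ^ (j / (n : ℤ))) * w ^ r := by
                rw [mul_right_comm (x ^ r) (w ^ r)⁻¹]
        rw [e2]
        exact U.mul_mem hj (U.pow_mem hwU r)
      · have hr2 : r = 0 := by omega
        rw [e, hr2, pow_zero, one_mul] at hj ⊢
        exact hSU _ (S.mul_mem ha (S.zpow_mem hs _)) hj
    refine hcon _ hy ?_
    have : (x * w⁻¹)⁻¹ * x = w := by group
    rw [this]
    exact hwU
  · have hx1 : x ∈ S := by
      refine hadd x hx fun a ha j hj => ?_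
      rcases lt_trichotomy j 0 with h | h | h
      · exfalso
        obtain ⟨m, hm⟩ := Int.eq_ofNat_of_zero_le (by omega : (0 : ℤ) ≤ -j)
        refine hex ⟨m, by omega, a, ha, ?_⟩
        have h2 := U.inv_mem hj
        have e : (a * x ^ j)⁻¹ = a⁻¹ * x ^ m := by
          rw [mul_inv, ← zpow_neg, hm, zpow_natCast]
        rwa [e] at h2
      · rw [h, zpow_zero, mul_one] at hj ⊢
        exact hSU a ha hj
      · exfalso
        obtain ⟨m, hm⟩ := Int.eq_ofNat_of_zero_le (by omega : (0 : ℤ) ≤ j)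
        refine hex ⟨m, by omega, a⁻¹, S.inv_mem ha, ?_⟩
        rw [inv_inv]
        rwa [hm, zpow_natCast] at hj
    refine hcon x hx1 ?_
    rw [inv_mul_cancel]
    exact U.one_mem

theorem root_unit (hUNI : T_UNI.{u}) (k Ω : Type u) [Field k] [IsAlgClosed k] [CharZero k]
    [Field Ω] [IsAlgClosed Ω] [Algebra k Ω] (O : ValuationSubring Ω) (M : Subfield Ω)
    (hR : Rs k O) (hk : ∀ c : k, algebraMap k Ω c ∈ M) (hM : Hns O M) (u : Ω) (hu : u ∈ M)
    (hu1 : O.valuation u = 1) (m : ℕ) (hm : 1 ≤ m) :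
    ∃ w ∈ M, w ^ m = u ∧ O.valuation w = 1 := by
  have hc1 : ∀ c : k, c ≠ 0 → O.valuation (algebraMap k Ω c) = 1 := by
    intro c hc
    have a1 := (O.valuation_le_one_iff _).2 (hR.1 c)
    have a2 := (O.valuation_le_one_iff _).2 (hR.1 c⁻¹)
    have a3 : O.valuation (algebraMap k Ω c) * O.valuation (algebraMap k Ω c⁻¹) = 1 := by
      rw [← map_mul, ← map_mul, mul_inv_cancel₀ hc, map_one, map_one]
    refine le_antisymm a1 ?_
    rw [← a3]
    exact mul_le_of_le_one_right' a2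
  obtain ⟨c, hc⟩ := hR.2 u ((O.valuation_le_one_iff _).1 hu1.le)
  have hc0 : c ≠ 0 := by
    rintro rfl
    rw [map_zero, sub_zero, hu1] at hc
    exact lt_irrefl _ hc
  obtain ⟨d, hd⟩ := IsAlgClosed.exists_pow_nat_eq c (by omega : 0 < m)
  have hd0 : d ≠ 0 := by
    rintro rfl
    rw [zero_pow (by omega)] at hd
    exact hc0 hd.symm
  have hcΩ : algebraMap k Ω c ≠ 0 := by
    rw [Ne, map_eq_zero]; exact hc0
  obtain ⟨w, hwM, hw, hw1⟩ := hUNI k Ω O M hR hk hM (u / algebraMap k Ω c)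
    (M.div_mem hu (hk c)) (by
      have e : u / algebraMap k Ω c - 1 = (u - algebraMap k Ω c) / algebraMap k Ω c := by
        field_simp
      rw [e, map_div₀, hc1 c hc0, div_one]
      exact hc) m hm
  refine ⟨algebraMap k Ω d * w, M.mul_mem (hk d) hwM, ?_, ?_⟩
  · rw [mul_pow, hw, ← map_pow, hd, mul_div_cancel₀ _ hcΩ]
  · rw [map_mul, hc1 d hd0, one_mul]
    have := Valuation.map_eq_of_sub_lt O.valuation (x := 1) (y := w) (by rw [map_one]; exact hw1)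
    rw [this, map_one]

theorem pf_SEC (hUNI : T_UNI.{u}) : T_SEC.{u} := by
  intro k Ω _ _ _ _ _ _ O N M hR hkN hNM hN hM
  let U : Subgroup Ωˣ :=
    { carrier := {u | O.valuation (u : Ω) = 1}
      mul_mem' := by
        intro a b ha hb
        simp only [Set.mem_ofPred_eq, Units.val_mul, map_mul] at ha hb ⊢
        rw [ha, hb, one_mul]
      one_mem' := by simp
      inv_mem' := by
        intro a ha
        simp only [Set.mem_ofPred_eq, Units.val_inv_eq_inv_val, map_inv₀] at ha ⊢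
        rw [ha, inv_one] }
  have hU : ∀ u : Ωˣ, u ∈ U ↔ O.valuation (u : Ω) = 1 := fun u => Iff.rfl
  have hSub : ∀ L : Subfield Ω, ∃ T : Subgroup Ωˣ, ∀ u : Ωˣ, u ∈ T ↔ (u : Ω) ∈ L := by
    intro L
    refine ⟨{ carrier := {u | (u : Ω) ∈ L}, mul_mem' := ?_, one_mem' := ?_, inv_mem' := ?_ },
      fun u => Iff.rfl⟩
    · intro a b ha hb
      simp only [Set.mem_ofPred_eq, Units.val_mul] at ha hb ⊢
      exact L.mul_mem ha hb
    · exact L.one_mem
    · intro a ha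
      simp only [Set.mem_ofPred_eq, Units.val_inv_eq_inv_val] at ha ⊢
      exact L.inv_mem ha
  have hdiv : ∀ (L : Subfield Ω) (T : Subgroup Ωˣ), (∀ u : Ωˣ, u ∈ T ↔ (u : Ω) ∈ L) →
      (∀ c : k, algebraMap k Ω c ∈ L) → Hns O L →
      ∀ g ∈ U, g ∈ T → ∀ n : ℕ, 1 ≤ n → ∃ w ∈ U, w ∈ T ∧ w ^ n = g := by
    intro L T hT hkL hL g hg hgT n hn
    obtain ⟨w, hw, hwn, hw1⟩ := root_unit hUNI k Ω O L hR hkL hL g ((hT g).1 hgT) hg n hn
    have hw0 : w ≠ 0 := by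
      rintro rfl
      rw [map_zero] at hw1
      exact zero_ne_one hw1
    refine ⟨Units.mk0 w hw0, hw1, (hT _).2 hw, ?_⟩
    ext
    simp [hwn]
  obtain ⟨TN, hTN⟩ := hSub N
  obtain ⟨TM, hTM⟩ := hSub M
  obtain ⟨S₀, -, h0N, h0U, h0x⟩ := exists_section U TN ⊥ (hdiv N TN hTN hkN hN) bot_le
    (fun s hs _ => Subgroup.mem_bot.1 hs)
  have hkM : ∀ c : k, algebraMap k Ω c ∈ M := fun c => hNM (hkN c)
  obtain ⟨S, h1, h2, h3, h4⟩ := exists_section U TM S₀ (hdiv M TM hTM hkM hM)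
    (fun s hs => (hTM s).2 (hNM ((hTN s).1 (h0N hs)))) h0U
  have hval : ∀ s x : Ωˣ, s⁻¹ * x ∈ U → O.valuation (s : Ω) = O.valuation (x : Ω) := by
    intro s x h
    rw [hU, Units.val_mul, map_mul, Units.val_inv_eq_inv_val, map_inv₀] at h
    have hs : O.valuation (s : Ω) ≠ 0 := (Valuation.ne_zero_iff _).2 s.ne_zero
    exact (inv_mul_eq_one₀ hs).1 h
  refine ⟨S, fun s hs => (hTM s).1 (h2 hs), fun s hs h => h3 s hs h, ?_, ?_⟩
  · intro x hx hx0
    obtain ⟨s, hs, hsx⟩ := h4 (Units.mk0 x hx0) ((hTM _).2 hx)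
    exact ⟨s, hs, hval _ _ hsx⟩
  · intro x hx hx0
    obtain ⟨s, hs, hsx⟩ := h0x (Units.mk0 x hx0) ((hTN _).2 hx)
    exact ⟨s, h1 hs, (hTN s).1 (h0N hs), hval _ _ hsx⟩

end Pool.Agent.H25.IX
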