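import Pool.Agent.H25.IX.WN3

/-!
# The pole order of the counting function

Induction on the number of the variables plus the number of the constraints.  Let `j` be the
smallest element of `J`.  A variable of position at most `j` is not seen by the constraints and can
be removed by a difference; if there is no such variable then the constraint `j` is satisfied
automatically for all large weights.
-/

set_option autoImplicit false

open Finset Pool.Agent.H15.IX
open MvPolynomial

namespace Pool.Agent.H25.IX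

universe u

/-- the counted set -/
abbrev wn1S {ι : Type} [Fintype ι] (pos : ι → ℕ) (J : Finset ℕ) (a : ℤ) (N : ℕ → ℤ) : Type :=
  {κ : ι → ℕ // ((∑ i, κ i * pos i : ℕ) : ℤ) = a ∧
    ∀ j ∈ J, N j ≤ ((∑ i, κ i * (pos i - j) : ℕ) : ℤ)}

theorem wn1_finite {ι : Type} [Fintype ι] (pos : ι → ℕ) (J : Finset ℕ) (a : ℤ) (N : ℕ → ℤ)
    (hpos : ∀ i, 1 ≤ pos i) : Finite (wn1S pos J a N) := by
  have hle : ∀ (κ : wn1S pos J a N) (i : ι), κ.1 i < a.toNat + 1 := by
    intro κ i
    have h := κ.2.1
    have h1 : κ.1 i * pos i ≤ ∑ i, κ.1 i * pos i :=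
      Finset.single_le_sum (f := fun i => κ.1 i * pos i) (fun i _ => Nat.zero_le _)
        (Finset.mem_univ i)
    have h2 : κ.1 i ≤ κ.1 i * pos i := Nat.le_mul_of_pos_right _ (hpos i)
    omega
  refine Finite.of_injective
    (fun κ : wn1S pos J a N => fun i : ι => (⟨κ.1 i, hle κ i⟩ : Fin (a.toNat + 1))) ?_
  intro κ κ' h
  apply Subtype.ext
  funext i
  have := congrFun h i
  exact Fin.mk.inj this

/-- removal of a variable which is not seen by the constraints -/
theorem wn1_rec {ι : Type} [Fintype ι] [DecidableEq ι] (pos : ι → ℕ) (J : Finset ℕ) (a : ℤ)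
    (N : ℕ → ℤ) (hpos : ∀ i, 1 ≤ pos i) (i₀ : ι) (h0 : ∀ j ∈ J, pos i₀ ≤ j) :
    Hc pos J a N = Hc (fun i : {i // i ≠ i₀} => pos i.1) J a N + Hc pos J (a - pos i₀) N := by
  have hsplit : ∀ (κ : ι → ℕ) (f : ι → ℕ), ∑ i, κ i * f i =
      κ i₀ * f i₀ + ∑ i : {i // i ≠ i₀}, κ i.1 * f i.1 := fun κ f =>
    Fintype.sum_eq_add_sum_subtype_ne (fun i => κ i * f i) i₀
  have hsee : ∀ (κ : ι → ℕ), ∀ j ∈ J, ∑ i, κ i * (pos i - j) =
      ∑ i : {i // i ≠ i₀}, κ i.1 * (pos i.1 - j) := by
    intro κ j hj
    rw [hsplit, Nat.sub_eq_zero_of_le (h0 j hj), mul_zero, zero_add]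
  have hf1 := wn1_finite (fun i : {i // i ≠ i₀} => pos i.1) J a N (fun i => hpos i.1)
  have hf2 := wn1_finite pos J (a - pos i₀) N hpos
  have e1 : {x : wn1S pos J a N // x.1 i₀ = 0} ≃
      wn1S (fun i : {i // i ≠ i₀} => pos i.1) J a N :=
    { toFun := fun x => ⟨fun i => x.1.1 i.1, by
        obtain ⟨⟨κ, h1, h2⟩, h3⟩ := x
        have h3' : κ i₀ = 0 := h3
        rw [hsplit, h3', zero_mul, zero_add] at h1
        exact ⟨h1, fun j hj => by
          have := h2 j hj
          rwa [hsee κ j hj] at this⟩⟩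
      invFun := fun y => ⟨⟨fun i => if h : i = i₀ then 0 else y.1 ⟨i, h⟩, by
        obtain ⟨κ, h1, h2⟩ := y
        have hs : ∀ f : ι → ℕ, ∑ i : {i // i ≠ i₀},
            (if h : i.1 = i₀ then 0 else κ ⟨i.1, h⟩) * f i.1 =
              ∑ i : {i // i ≠ i₀}, κ i * f i.1 := fun f =>
          Finset.sum_congr rfl fun i _ => by rw [dif_neg i.2]
        constructor
        · rw [hsplit, dif_pos rfl, zero_mul, zero_add, hs]
          exact h1
        · intro j hj
          rw [hsee _ j hj, hs fun i => pos i - j]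
          exact h2 j hj⟩, dif_pos rfl⟩
      left_inv := by
        rintro ⟨⟨κ, h1, h2⟩, h3⟩
        apply Subtype.ext
        apply Subtype.ext
        funext i
        by_cases h : i = i₀
        · simp only [dif_pos h]
          rw [h]
          exact h3.symm
        · simp only [dif_neg h]
      right_inv := by
        rintro ⟨κ, h1, h2⟩
        apply Subtype.ext
        funext i
        simp only [dif_neg i.2] }
  have e2 : {x : wn1S pos J a N // ¬ x.1 i₀ = 0} ≃ wn1S pos J (a - pos i₀) N := by
    have hup : ∀ (κ : ι → ℕ) (n : ℕ) (f : ι → ℕ), ∑ i, Function.update κ i₀ n i * f i =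
        n * f i₀ + ∑ i : {i // i ≠ i₀}, κ i.1 * f i.1 := by
      intro κ n f
      rw [hsplit, Function.update_self]
      congr 1
      exact Finset.sum_congr rfl fun i _ => by rw [Function.update_of_ne i.2]
    refine
    { toFun := fun x => ⟨Function.update x.1.1 i₀ (x.1.1 i₀ - 1), ?_⟩
      invFun := fun y => ⟨⟨Function.update y.1 i₀ (y.1 i₀ + 1), ?_⟩, ?_⟩
      left_inv := ?_
      right_inv := ?_ }
    · obtain ⟨⟨κ, h1, h2⟩, h3⟩ := x
      have h3' : κ i₀ ≠ 0 := h3
      rw [hsplit] at h1
      refine ⟨?_, fun j hj => ?_⟩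
      · rw [hup]
        obtain ⟨k, hk⟩ := Nat.exists_eq_succ_of_ne_zero h3'
        simp only
        rw [hk] at h1 ⊢
        rw [Nat.succ_sub_one]
        push_cast at h1 ⊢
        rw [← h1]
        ring
      · rw [hup, Nat.sub_eq_zero_of_le (h0 j hj), mul_zero, zero_add]
        have := h2 j hj
        rwa [hsee κ j hj] at this
    · obtain ⟨κ, h1, h2⟩ := y
      rw [hsplit] at h1
      refine ⟨?_, fun j hj => ?_⟩
      · rw [hup]
        simp only
        push_cast at h1 ⊢
        linarith
      · rw [hup, Nat.sub_eq_zero_of_le (h0 j hj), mul_zero, zero_add]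
        have := h2 j hj
        rwa [hsee κ j hj] at this
    · simp
    · rintro ⟨⟨κ, h1, h2⟩, h3⟩
      have h3' : κ i₀ ≠ 0 := h3
      apply Subtype.ext
      apply Subtype.ext
      funext i
      by_cases h : i = i₀
      · subst h
        simp only [Function.update_self]
        omega
      · simp only [Function.update_of_ne h]
    · rintro ⟨κ, h1, h2⟩
      apply Subtype.ext
      funext i
      by_cases h : i = i₀
      · subst h
        simp only [Function.update_self]
        omega
      · simp only [Function.update_of_ne h]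
  have hc := Nat.card_congr ((Equiv.sumCongr e1 e2).symm.trans
    (Equiv.sumCompl (fun x : wn1S pos J a N => x.1 i₀ = 0)))
  rw [Nat.card_sum] at hc
  exact hc.symm

/-- a constraint which is satisfied automatically -/
theorem wn1_drop {ι : Type} [Fintype ι] (pos : ι → ℕ) (J : Finset ℕ) (N : ℕ → ℤ) (j : ℕ)
    (hj : ∀ i, j < pos i) :
    ∃ a₀ : ℤ, ∀ a, a₀ ≤ a → Hc pos (J.erase j) a N = Hc pos J a N := by
  classical
  refine ⟨(∑ i, pos i : ℕ) * (N j).toNat + 1, fun a ha => ?_⟩
  unfold Hc
  refine Nat.card_congr (Equiv.subtypeEquivRight fun κ => ?_)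
  constructor
  · rintro ⟨h1, h2⟩
    refine ⟨h1, fun j' hj' => ?_⟩
    by_cases hjj : j' = j
    · subst hjj
      by_contra hcon
      push Not at hcon
      have h3 : ∑ i, κ i * pos i ≤ (∑ i, pos i) * ∑ i, κ i * (pos i - j') := by
        rw [Finset.mul_sum]
        refine Finset.sum_le_sum fun i _ => ?_
        have h4 : pos i ≤ ∑ i, pos i :=
          Finset.single_le_sum (f := pos) (fun i _ => Nat.zero_le _) (Finset.mem_univ i)
        have h5 : 1 ≤ pos i - j' := by have := hj i; omega
        calc κ i * pos i = pos i * (κ i * 1) := by ring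
          _ ≤ (∑ i, pos i) * (κ i * (pos i - j')) :=
            Nat.mul_le_mul h4 (Nat.mul_le_mul_left _ h5)
      have h6 : ∑ i, κ i * (pos i - j') ≤ (N j').toNat := by omega
      have h7 : ∑ i, κ i * pos i ≤ (∑ i, pos i) * (N j').toNat :=
        h3.trans (Nat.mul_le_mul_left _ h6)
      have h8 : ((∑ i, κ i * pos i : ℕ) : ℤ) ≤ ((∑ i, pos i : ℕ) : ℤ) * (N j').toNat := by
        exact_mod_cast h7
      rw [h1] at h8
      linarith
    · exact h2 j' (Finset.mem_erase.2 ⟨hjj, hj'⟩)
  · rintro ⟨h1, h2⟩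
    exact ⟨h1, fun j' hj' => h2 j' (Finset.mem_of_mem_erase hj')⟩

/-- without constraints -/
theorem wn1_empty (p : ℕ) (hp : p.Prime) {ι : Type} [Fintype ι] (pos : ι → ℕ) (N : ℕ → ℤ)
    (hpos : ∀ i, 1 ≤ pos i) :
    Wc p (∑ i, wp p (pos i)) (fun a => (Hc pos ∅ a N : ZMod p)) := by
  have : Fact p.Prime := ⟨hp⟩
  have hN : ∀ a, Hc pos ∅ a N = Hc pos ∅ a (fun _ => 0) := by
    intro a
    unfold Hc
    exact Nat.card_congr (Equiv.subtypeEquivRight fun κ => by simp)
  choose E hE1 hE2 using fun (k : ℕ) (hk : 1 ≤ k) => wn3_factor p k hp hk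
  obtain ⟨f, hf⟩ : ∃ f : ℤ → ZMod p, f = fun a => (Hc pos ∅ a N : ZMod p) := ⟨_, rfl⟩
  have hf0 : ∀ a : ℤ, a < 0 → f a = 0 := by
    intro a ha
    rw [hf]
    simp only
    rw [hN, wn3_Hc_neg pos ∅ a ha, Nat.cast_zero]
  have hfn : ∀ n : ℕ, f n = (wn3h pos n : ZMod p) := by
    intro n
    rw [hf]
    simp only
    rw [hN, wn3_Hc_nat]
  refine ⟨∏ i, E (pos i) (hpos i), ?_, 1, fun a ha => ?_⟩
  · rw [Polynomial.eval_prod]
    exact Finset.prod_ne_zero_iff.2 fun i _ => hE1 _ _
  · rw [← hf]
    obtain ⟨n, rfl⟩ := Int.eq_ofNat_of_zero_le (by omega : (0 : ℤ) ≤ a)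
    rw [← wn3_act _ f hf0 n]
    have e1 : (∏ i, E (pos i) (hpos i)) * (1 - Polynomial.X) ^ (∑ i, wp p (pos i)) =
        ∏ i, (1 - Polynomial.X ^ pos i) := by
      rw [mul_comm, ← Finset.prod_pow_eq_pow_sum, ← Finset.prod_mul_distrib]
      exact Finset.prod_congr rfl fun i _ => (hE2 _ _).symm
    have e2 : ((∏ i, (1 - Polynomial.X ^ pos i) : Polynomial (ZMod p)) :
        PowerSeries (ZMod p)) = ∏ i, (1 - PowerSeries.X ^ pos i) := by
      classical
      have hs : ∀ s : Finset ι,
          ((∏ i ∈ s, (1 - Polynomial.X ^ pos i) : Polynomial (ZMod p)) :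
            PowerSeries (ZMod p)) = ∏ i ∈ s, (1 - PowerSeries.X ^ pos i) := by
        intro s
        induction s using Finset.induction_on with
        | empty => rw [Finset.prod_empty, Finset.prod_empty, Polynomial.coe_one]
        | insert a s ha ih =>
          rw [Finset.prod_insert ha, Finset.prod_insert ha, Polynomial.coe_mul, ih,
            Polynomial.coe_sub, Polynomial.coe_one, Polynomial.coe_pow, Polynomial.coe_X]
      exact hs Finset.univ
    have e3 : PowerSeries.mk (fun n : ℕ => f n) =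
        PowerSeries.mk (fun n : ℕ => (wn3h pos n : ZMod p)) := by
      ext n
      rw [PowerSeries.coeff_mk, PowerSeries.coeff_mk, hfn]
    rw [e1, e2, e3, mul_comm, wn3_HH_mul (ZMod p) pos hpos, PowerSeries.coeff_one,
      if_neg (by omega)]

theorem pf_WN1 (hWCL : T_WCL) : T_WN1 := by
  intro p ι _ pos J N hp hpos hJ
  obtain ⟨-, -, -, -, -, w6, w7⟩ := hWCL p hp
  have key : ∀ (n : ℕ) (ι : Type) [Fintype ι] (pos : ι → ℕ) (J : Finset ℕ),
      Fintype.card ι + J.card = n → (∀ i, 1 ≤ pos i) →
      Wc p (∑ i, wp p (pos i)) (fun a => (Hc pos J a N : ZMod p)) := by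
    intro n
    induction n using Nat.strong_induction_on with
    | _ n ih =>
      intro ι _ pos J hn hpos
      classical
      rcases J.eq_empty_or_nonempty with hJ | hJ
      · subst hJ
        exact wn1_empty p hp pos N hpos
      · have hcard : 0 < J.card := Finset.card_pos.2 hJ
        by_cases hi : ∃ i₀, pos i₀ ≤ J.min' hJ
        · obtain ⟨i₀, hi₀⟩ := hi
          have h0 : ∀ j ∈ J, pos i₀ ≤ j := fun j hj => hi₀.trans (J.min'_le j hj)
          have hlt : Fintype.card {i // i ≠ i₀} < Fintype.card ι :=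
            Fintype.card_subtype_lt (x := i₀) (by simp)
          have h1 := ih (Fintype.card {i // i ≠ i₀} + J.card) (by omega) {i // i ≠ i₀}
            (fun i => pos i.1) J rfl (fun i => hpos i.1)
          have h2 := w6 _ (pos i₀) (fun a => (Hc pos J a N : ZMod p)) (hpos i₀) (by
            have e : (fun a => (Hc pos J a N : ZMod p) - (Hc pos J (a - pos i₀) N : ZMod p)) =
                fun a => (Hc (fun i : {i // i ≠ i₀} => pos i.1) J a N : ZMod p) := by
              funext a
              rw [wn1_rec pos J a N hpos i₀ h0]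
              push_cast
              ring
            rw [e]
            exact h1)
          rw [Fintype.sum_eq_add_sum_subtype_ne (fun i => wp p (pos i)) i₀, add_comm]
          exact h2
        · push Not at hi
          have hmem := J.min'_mem hJ
          have h1 := ih (Fintype.card ι + (J.erase (J.min' hJ)).card) (by
            rw [Finset.card_erase_of_mem hmem]
            omega) ι pos (J.erase (J.min' hJ)) rfl hpos
          obtain ⟨a₀, ha₀⟩ := wn1_drop pos J N (J.min' hJ) hi
          exact w7 _ _ _ ⟨a₀, fun a ha => by rw [ha₀ a ha]⟩ h1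
  exact key _ ι pos J rfl hpos

end Pool.Agent.H25.IX
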