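import Pool.Agent.H15.IX.TE

/-!
# The exact pole order of the naive function
-/

set_option autoImplicit false

open Finset Pool.Agent.H15.IX
open MvPolynomial

namespace Pool.Agent.H25.IX

universe u

/-- `1 - X ^ m = (1 - X) ^ w E` with `E(1) ≠ 0` -/
theorem wn3_factor (p m : ℕ) (hp : p.Prime) (hm : 1 ≤ m) :
    ∃ E : Polynomial (ZMod p), E.eval 1 ≠ 0 ∧
      (1 - Polynomial.X ^ m : Polynomial (ZMod p)) = (1 - Polynomial.X) ^ wp p m * E := by
  have : Fact p.Prime := ⟨hp⟩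
  obtain ⟨v, m', h1, h2⟩ := Nat.exists_eq_pow_mul_and_not_dvd (by omega : m ≠ 0) p hp.ne_one
  have hm'0 : m' ≠ 0 := by
    rintro rfl
    exact h1 (dvd_zero p)
  have hv : padicValNat p m = v := by
    rw [h2, padicValNat.mul (pow_ne_zero _ hp.ne_zero) hm'0, padicValNat.prime_pow,
      padicValNat.eq_zero_of_not_dvd h1, add_zero]
  have hw : wp p m = p ^ v := by rw [wp, hv]
  refine ⟨(∑ i ∈ range m', Polynomial.X ^ i) ^ p ^ v, ?_, ?_⟩
  · rw [Polynomial.eval_pow, Polynomial.eval_finsetSum]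
    refine pow_ne_zero _ ?_
    simp only [Polynomial.eval_pow, Polynomial.eval_X, one_pow, Finset.sum_const,
      Finset.card_range, nsmul_eq_mul, mul_one]
    rw [Ne, ZMod.natCast_eq_zero_iff]
    exact h1
  · rw [hw, ← mul_pow, mul_comm, geom_sum_mul_neg]
    rw [sub_pow_char_pow, one_pow, ← pow_mul, mul_comm m', ← h2]

/-- the number of `κ` of weight `n` -/
noncomputable def wn3h {ι : Type} [Fintype ι] (pos : ι → ℕ) (n : ℕ) : ℕ :=
  Nat.card {κ : ι → ℕ // ∑ i, κ i * pos i = n}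

theorem wn3_Hc_nat {ι : Type} [Fintype ι] (pos : ι → ℕ) (J : Finset ℕ) (n : ℕ) :
    Hc pos J (n : ℤ) (fun _ => 0) = wn3h pos n := by
  unfold Hc wn3h
  refine Nat.card_congr (Equiv.subtypeEquivRight fun κ => ?_)
  constructor
  · rintro ⟨h, -⟩
    exact_mod_cast h
  · intro h
    exact ⟨by rw [h], fun j _ => by positivity⟩

theorem wn3_Hc_neg {ι : Type} [Fintype ι] (pos : ι → ℕ) (J : Finset ℕ) (a : ℤ) (ha : a < 0) :
    Hc pos J a (fun _ => 0) = 0 := by
  unfold Hc
  have : IsEmpty {κ : ι → ℕ // ((∑ i, κ i * pos i : ℕ) : ℤ) = a ∧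
    ∀ j ∈ J, (fun _ : ℕ => (0 : ℤ)) j ≤ ((∑ i, κ i * (pos i - j) : ℕ) : ℤ)} := by
    refine ⟨fun κ => ?_⟩
    have h := κ.2.1
    have h0 : (0 : ℤ) ≤ ((∑ i, κ.1 i * pos i : ℕ) : ℤ) := by positivity
    omega
  exact Nat.card_of_isEmpty

/-- the geometric series -/
theorem wn3_geom (R : Type) [CommRing R] (d : ℕ) (hd : 1 ≤ d) :
    (PowerSeries.mk (fun n => if d ∣ n then (1 : R) else 0)) * (1 - PowerSeries.X ^ d) = 1 := by
  ext n
  rw [mul_comm, sub_mul, one_mul, map_sub, PowerSeries.coeff_X_pow_mul', PowerSeries.coeff_mk,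
    PowerSeries.coeff_one]
  by_cases hn : d ≤ n
  · rw [if_pos hn, PowerSeries.coeff_mk, if_neg (by omega : ¬ n = 0)]
    have : d ∣ n - d ↔ d ∣ n := by
      obtain ⟨k, rfl⟩ := Nat.exists_eq_add_of_le hn
      rw [Nat.add_sub_cancel_left, Nat.dvd_add_right dvd_rfl]
    simp only [this, sub_self]
  · rw [if_neg hn, sub_zero]
    by_cases hn0 : n = 0
    · simp [hn0]
    · rw [if_neg hn0, if_neg]
      exact fun h => hn (Nat.le_of_dvd (by omega) h)

theorem wn3_HH (R : Type) [CommRing R] {ι : Type} [Fintype ι] (pos : ι → ℕ)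
    (hpos : ∀ i, 1 ≤ pos i) :
    PowerSeries.mk (fun n => (wn3h pos n : R)) =
      ∏ i, PowerSeries.mk (fun n => if pos i ∣ n then (1 : R) else 0) := by
  classical
  ext n
  rw [PowerSeries.coeff_mk, PowerSeries.coeff_prod]
  simp only [PowerSeries.coeff_mk]
  have e1 : ∀ l : ι →₀ ℕ, ∏ i, (if pos i ∣ l i then (1 : R) else 0) =
      if ∀ i, pos i ∣ l i then 1 else 0 := by
    intro l
    by_cases h : ∀ i, pos i ∣ l i
    · rw [if_pos h]
      exact Finset.prod_eq_one fun i _ => if_pos (h i)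
    · rw [if_neg h]
      push Not at h
      obtain ⟨i, hi⟩ := h
      exact Finset.prod_eq_zero (Finset.mem_univ i) (if_neg hi)
  simp only [e1]
  rw [Finset.sum_boole]
  congr 1
  unfold wn3h
  rw [← Fintype.card_coe, ← Nat.card_eq_fintype_card]
  refine Nat.card_congr
    { toFun := fun κ => ⟨Finsupp.equivFunOnFinite.symm (fun i => κ.1 i * pos i), ?_⟩
      invFun := fun l => ⟨fun i => l.1 i / pos i, ?_⟩
      left_inv := ?_
      right_inv := ?_ }
  · rw [Finset.mem_filter, Finset.mem_finsuppAntidiag]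
    refine ⟨⟨?_, Finset.subset_univ _⟩, fun i => ?_⟩
    · exact κ.2
    · exact dvd_mul_left _ _
  · have h := l.2
    rw [Finset.mem_filter, Finset.mem_finsuppAntidiag] at h
    obtain ⟨⟨h1, -⟩, h2⟩ := h
    have : ∑ i, l.1 i / pos i * pos i = ∑ i, l.1 i :=
      Finset.sum_congr rfl fun i _ => Nat.div_mul_cancel (h2 i)
    rw [this]
    exact h1
  · intro κ
    apply Subtype.ext
    funext i
    exact Nat.mul_div_cancel _ (hpos i)
  · intro l
    have h := l.2
    rw [Finset.mem_filter, Finset.mem_finsuppAntidiag] at h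
    apply Subtype.ext
    ext i
    exact Nat.div_mul_cancel (h.2 i)

theorem wn3_HH_mul (R : Type) [CommRing R] {ι : Type} [Fintype ι] (pos : ι → ℕ)
    (hpos : ∀ i, 1 ≤ pos i) :
    PowerSeries.mk (fun n => (wn3h pos n : R)) * ∏ i, (1 - PowerSeries.X ^ pos i) = 1 := by
  rw [wn3_HH R pos hpos, ← Finset.prod_mul_distrib]
  exact Finset.prod_eq_one fun i _ => wn3_geom R (pos i) (hpos i)

/-- the action on a function without negative part -/
theorem wn3_act {p : ℕ} (G : Polynomial (ZMod p)) (f : ℤ → ZMod p) (hf : ∀ a < 0, f a = 0)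
    (n : ℕ) : PowerSeries.coeff n ((G : PowerSeries (ZMod p)) *
      PowerSeries.mk (fun n : ℕ => f n)) = act G f n := by
  rw [PowerSeries.coeff_mul, Finset.Nat.sum_antidiagonal_eq_sum_range_succ_mk]
  simp only [Polynomial.coeff_coe, PowerSeries.coeff_mk]
  unfold act
  have e1 : ∑ i ∈ range (n + 1), G.coeff i * f ((n - i : ℕ) : ℤ) =
      ∑ i ∈ range (max n G.natDegree + 1), G.coeff i * f ((n : ℤ) - i) := by
    have e0 : ∑ i ∈ range (n + 1), G.coeff i * f ((n - i : ℕ) : ℤ) =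
        ∑ i ∈ range (n + 1), G.coeff i * f ((n : ℤ) - i) := by
      refine Finset.sum_congr rfl fun i hi => ?_
      rw [Finset.mem_range] at hi
      rw [Nat.cast_sub (by omega)]
    rw [e0]
    refine Finset.sum_subset ?_ ?_
    · intro i hi
      rw [Finset.mem_range] at hi ⊢
      omega
    · intro i _ hi
      rw [Finset.mem_range] at hi
      rw [hf _ (by omega), mul_zero]
  have e2 : ∑ i ∈ range (G.natDegree + 1), G.coeff i * f ((n : ℤ) - i) =
      ∑ i ∈ range (max n G.natDegree + 1), G.coeff i * f ((n : ℤ) - i) := by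
    refine Finset.sum_subset ?_ ?_
    · intro i hi
      rw [Finset.mem_range] at hi ⊢
      omega
    · intro i _ hi
      rw [Finset.mem_range] at hi
      rw [Polynomial.coeff_eq_zero_of_natDegree_lt (by omega), zero_mul]
  rw [e1, e2]

/-- the series of the alternating sum -/
theorem wn3_FF {p : ℕ} {κ : Type} [Fintype κ] [DecidableEq κ] (m : κ → ℕ) (h : ℤ → ZMod p)
    (hh : ∀ a < 0, h a = 0) :
    PowerSeries.mk (fun n : ℕ => ∑ T : Finset κ, (-1 : ZMod p) ^ T.card *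
      h ((n : ℤ) - ∑ σ ∈ T, (m σ : ℤ))) =
    (∏ σ, (1 - PowerSeries.X ^ m σ)) * PowerSeries.mk (fun n : ℕ => h n) := by
  have e : ∏ σ, (1 - (PowerSeries.X : PowerSeries (ZMod p)) ^ m σ) =
      ∑ T : Finset κ, (-1 : PowerSeries (ZMod p)) ^ T.card *
        PowerSeries.X ^ (∑ σ ∈ T, m σ) := by
    simp only [sub_eq_add_neg]
    rw [Finset.prod_one_add, Finset.powerset_univ]
    refine Finset.sum_congr rfl fun T _ => ?_
    rw [Finset.prod_neg, Finset.prod_pow_eq_pow_sum]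
  rw [e, Finset.sum_mul]
  ext n
  rw [map_sum, PowerSeries.coeff_mk]
  refine Finset.sum_congr rfl fun T _ => ?_
  have e2 : (-1 : PowerSeries (ZMod p)) ^ T.card = PowerSeries.C ((-1 : ZMod p) ^ T.card) := by
    simp
  rw [e2, mul_assoc, PowerSeries.coeff_C_mul, PowerSeries.coeff_X_pow_mul']
  congr 1
  by_cases hn : ∑ σ ∈ T, m σ ≤ n
  · rw [if_pos hn, PowerSeries.coeff_mk, Nat.cast_sub hn]
    push_cast
    rfl
  · rw [if_neg hn]
    refine hh _ ?_
    have : ((∑ σ ∈ T, m σ : ℕ) : ℤ) = ∑ σ ∈ T, (m σ : ℤ) := by push_cast; rfl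
    omega

theorem pf_WN3 : T_WN3 := by
  intro p q ι κ _ _ _ pos m J hp hpos hm hlt hW
  have : Fact p.Prime := ⟨hp⟩
  obtain ⟨D, hD, a₀, hact⟩ := hW
  have hh : ∀ a : ℤ, a < 0 → (Hc pos J a (fun _ => 0) : ZMod p) = 0 := by
    intro a ha
    rw [wn3_Hc_neg pos J a ha, Nat.cast_zero]
  obtain ⟨h, hhdef⟩ : ∃ h : ℤ → ZMod p, h = fun a => (Hc pos J a (fun _ => 0) : ZMod p) :=
    ⟨_, rfl⟩
  obtain ⟨f, hf⟩ : ∃ f : ℤ → ZMod p, f = fun a => ∑ T : Finset κ, (-1 : ZMod p) ^ T.card *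
    h (a - ∑ σ ∈ T, (m σ : ℤ)) := ⟨_, rfl⟩
  have hh' : ∀ a : ℤ, a < 0 → h a = 0 := fun a ha => by rw [hhdef]; exact hh a ha
  have hf0 : ∀ a : ℤ, a < 0 → f a = 0 := by
    intro a ha
    rw [hf]
    refine Finset.sum_eq_zero fun T _ => ?_
    rw [hh' _ (by
      have : 0 ≤ ∑ σ ∈ T, (m σ : ℤ) := Finset.sum_nonneg fun σ _ => by positivity
      omega), mul_zero]
  have hact' : ∀ a, a₀ ≤ a → act (D * (1 - Polynomial.X) ^ q) f a = 0 := by
    rw [hf, hhdef]
    exact hact
  obtain ⟨G, hG⟩ : ∃ G : Polynomial (ZMod p), G = D * (1 - Polynomial.X) ^ q := ⟨_, rfl⟩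
  rw [← hG] at hact'
  -- `G f` is a polynomial
  obtain ⟨P, hP⟩ : ∃ P : Polynomial (ZMod p), (P : PowerSeries (ZMod p)) =
      (G : PowerSeries (ZMod p)) * PowerSeries.mk (fun n : ℕ => f n) := by
    refine ⟨PowerSeries.trunc a₀.toNat ((G : PowerSeries (ZMod p)) *
      PowerSeries.mk (fun n : ℕ => f n)), ?_⟩
    ext n
    rw [Polynomial.coeff_coe, PowerSeries.coeff_trunc]
    split_ifs with hn
    · rfl
    · rw [wn3_act G f hf0, hact' n (by omega)]
  have hFF : PowerSeries.mk (fun n : ℕ => f n) =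
      (∏ σ, (1 - PowerSeries.X ^ m σ)) * PowerSeries.mk (fun n : ℕ => h n) := by
    rw [hf]
    exact wn3_FF m h hh'
  have hHH : PowerSeries.mk (fun n : ℕ => h n) * ∏ i, (1 - PowerSeries.X ^ pos i) = 1 := by
    have : (fun n : ℕ => h n) = fun n : ℕ => (wn3h pos n : ZMod p) := by
      funext n
      rw [hhdef]
      simp only [wn3_Hc_nat]
    rw [this]
    exact wn3_HH_mul (ZMod p) pos hpos
  have hpoly : P * ∏ i, (1 - Polynomial.X ^ pos i) = G * ∏ σ, (1 - Polynomial.X ^ m σ) := by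
    have hc : ∀ (α : Type) [Fintype α] (l : α → ℕ),
        ((∏ i, (1 - Polynomial.X ^ l i) : Polynomial (ZMod p)) : PowerSeries (ZMod p)) =
          ∏ i, (1 - PowerSeries.X ^ l i) := by
      intro α _ l
      classical
      have hs : ∀ s : Finset α,
          ((∏ i ∈ s, (1 - Polynomial.X ^ l i) : Polynomial (ZMod p)) : PowerSeries (ZMod p)) =
            ∏ i ∈ s, (1 - PowerSeries.X ^ l i) := by
        intro s
        induction s using Finset.induction_on with
        | empty => rw [Finset.prod_empty, Finset.prod_empty, Polynomial.coe_one]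
        | insert a s ha ih =>
          rw [Finset.prod_insert ha, Finset.prod_insert ha, Polynomial.coe_mul, ih,
            Polynomial.coe_sub, Polynomial.coe_one, Polynomial.coe_pow, Polynomial.coe_X]
      exact hs Finset.univ
    rw [← Polynomial.coe_inj, Polynomial.coe_mul, Polynomial.coe_mul, hc, hc, hP, hFF]
    calc (G : PowerSeries (ZMod p)) * ((∏ σ, (1 - PowerSeries.X ^ m σ)) *
          PowerSeries.mk (fun n : ℕ => h n)) * ∏ i, (1 - PowerSeries.X ^ pos i) =
        (G : PowerSeries (ZMod p)) * (∏ σ, (1 - PowerSeries.X ^ m σ)) *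
          (PowerSeries.mk (fun n : ℕ => h n) * ∏ i, (1 - PowerSeries.X ^ pos i)) := by ring
      _ = _ := by rw [hHH, mul_one]
  choose E hE1 hE2 using fun (k : ℕ) (hk : 1 ≤ k) => wn3_factor p k hp hk
  have hL : ∏ i, (1 - Polynomial.X ^ pos i) =
      (1 - Polynomial.X : Polynomial (ZMod p)) ^ (∑ i, wp p (pos i)) *
        ∏ i, E (pos i) (hpos i) := by
    rw [← Finset.prod_pow_eq_pow_sum, ← Finset.prod_mul_distrib]
    exact Finset.prod_congr rfl fun i _ => hE2 _ _
  have hR : ∏ σ, (1 - Polynomial.X ^ m σ) =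
      (1 - Polynomial.X : Polynomial (ZMod p)) ^ (∑ σ, wp p (m σ)) *
        ∏ σ, E (m σ) (hm σ) := by
    rw [← Finset.prod_pow_eq_pow_sum, ← Finset.prod_mul_distrib]
    exact Finset.prod_congr rfl fun i _ => hE2 _ _
  obtain ⟨k, hk⟩ := Nat.exists_eq_add_of_lt hlt
  rw [hL, hR, hG, hk] at hpoly
  have hne : (1 - Polynomial.X : Polynomial (ZMod p)) ^ (∑ σ, wp p (m σ) + q) ≠ 0 := by
    refine pow_ne_zero _ fun h0 => ?_
    have := congrArg (Polynomial.eval 0) h0
    simp at this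
  have hcan : (1 - Polynomial.X : Polynomial (ZMod p)) ^ (k + 1) *
      (P * ∏ i, E (pos i) (hpos i)) = D * ∏ σ, E (m σ) (hm σ) := by
    refine mul_left_cancel₀ hne ?_
    rw [← mul_assoc, ← pow_add]
    calc _ = P * ((1 - Polynomial.X) ^ (∑ σ, wp p (m σ) + q + k + 1) *
          ∏ i, E (pos i) (hpos i)) := by ring
      _ = _ := by rw [hpoly]; ring
  have hev := congrArg (Polynomial.eval 1) hcan
  rw [Polynomial.eval_mul, Polynomial.eval_pow, Polynomial.eval_sub, Polynomial.eval_one,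
    Polynomial.eval_X, sub_self, zero_pow (by omega), zero_mul, Polynomial.eval_mul,
    Polynomial.eval_prod] at hev
  exact (mul_ne_zero hD (Finset.prod_ne_zero_iff.2 fun σ _ => hE1 _ _)) hev.symm

end Pool.Agent.H25.IX
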